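import Mathlib
import Pool.Agent.Helper16.VG.VojtaG
import Pool.Agent.Helper16.VG.Shift

/-!
Vojta's inequality, with the discriminant of the conjugates of the point in place of the discriminant of
the field, on all smooth projective varieties `X` with a divisor `D` with simple normal crossings, for all
points of degree `r` outside a proper closed subset whose Chow form is, up to scaling, a combination of
given forms with coefficients which are `T`-units or zero.

`k` is a number field, `S` a finite set of places containing the infinite ones. The homogeneous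
coordinates are indexed by `Fin (d + 1) ⊕ Fin c`; the first one is `Sum.inl 0`. `X` is the set of zeros of
the forms `φ i`, smooth of dimension `d`, so of codimension `c`. `D` is the divisor of common zeros on `X`
of forms `g i` of degree `q`. Points are given by coordinates in the algebraic closure of `k` with first
coordinate `1`.
-/

namespace Pool.Agent.Results.MP_71c16a_nt.UnitChowForms

open NumberField IntermediateField Pool.Agent.Helper64.Vojta

universe u

section

variable {k : Type u} [Field k] [NumberField k] {κ : Type} [Fintype κ]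

/-- The field generated over `k` by the coordinates of `x`. -/
noncomputable abbrev fld (x : κ → AlgebraicClosure k) : IntermediateField k (AlgebraicClosure k) :=
  adjoin k (Set.range x)

instance finite_fld (x : κ → AlgebraicClosure k) : FiniteDimensional k (fld x) :=
  finiteDimensional_adjoin fun y _ => Algebra.IsIntegral.isIntegral y

instance numberField_fld (x : κ → AlgebraicClosure k) : NumberField (fld x) := by
  have h0 : CharZero (fld x) := charZero_of_injective_algebraMap (algebraMap k (fld x)).injective
  have h1 : FiniteDimensional ℚ (fld x) := Module.Finite.trans k (fld x)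
  exact { to_charZero := h0, to_finiteDimensional := h1 }

/-- The coordinates of `x` as elements of the field which they generate. -/
noncomputable def co (x : κ → AlgebraicClosure k) : κ → fld x := fun j =>
  ⟨x j, subset_adjoin k _ ⟨j, rfl⟩⟩

/-- The degree of `x` over `k`. -/
noncomputable def dg (x : κ → AlgebraicClosure k) : ℕ := Module.finrank k (fld x)

/-- For `y_j` in a finite extension `L` of `k`: the norm of `∑ y_j U_j`, a form of degree `[L : k]` over `k`
in the variables `U_j` (the determinant of the multiplication by `∑ y_j U_j`). -/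
noncomputable def normForm (k : Type u) {L : Type u} [Field k] [Field L] [Algebra k L]
    [FiniteDimensional k L] (y : κ → L) : MvPolynomial κ k :=
  Matrix.det (∑ j, (MvPolynomial.X j : MvPolynomial κ k) •
    (Algebra.leftMulMatrix (Module.finBasis k L) (y j)).map MvPolynomial.C)

/-- The Chow form of `x`: the norm of `∑ x_j U_j`. -/
noncomputable def chow (x : κ → AlgebraicClosure k) : MvPolynomial κ k := normForm k (co x)

/-- `F (T H - C)`, a polynomial in `T` over the ring of polynomials in the variables `H_j` (index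
`Sum.inl j`) and `C_j` (index `Sum.inr j`). -/
noncomputable def pencil (F : MvPolynomial κ k) : Polynomial (MvPolynomial (κ ⊕ κ) k) :=
  MvPolynomial.aeval (fun j => Polynomial.C (MvPolynomial.X (Sum.inl j)) * Polynomial.X -
    Polynomial.C (MvPolynomial.X (Sum.inr j))) F

/-- The discriminant of the Chow form `F` of `x` on the pencil `T H - C`, a polynomial in the `H_j` and
`C_j`. It is up to sign the product over the pairs `a ≠ b` of conjugates of `x` of
`∑ C_j a_j * ∑ H_j b_j - ∑ C_j b_j * ∑ H_j a_j`, whose coefficients are the `a_i b_j - a_j b_i`. -/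
noncomputable def disc (x : κ → AlgebraicClosure k) : MvPolynomial (κ ⊕ κ) k :=
  (pencil (chow x)).discr

/-- Logarithmic height, relative to `k`; `Height.logHeight` is Mathlib's height relative to the field
of the coordinates. -/
noncomputable def hgt (x : κ → AlgebraicClosure k) : ℝ := Height.logHeight (co x) / dg x

/-- Logarithmic discriminant `d_k(x)`. -/
noncomputable def dk (x : κ → AlgebraicClosure k) : ℝ :=
  Real.log |(discr (fld x) : ℝ)| / dg x - Real.log |(discr k : ℝ)|

/-- The Weil function, relative to `k`, at the place `p` of `k` of the divisor with the ideal generated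
by the forms `g i` of degree `q`. -/
noncomputable def lamD {ν : ℕ} (g : Fin ν → MvPolynomial κ k) (q : ℕ) (p : Pl k)
    (x : κ → AlgebraicClosure k) : ℝ :=
  (∑ w ∈ above (fld x) p, (q * Real.log (⨆ j, nv w (co x j)) -
    Real.log (⨆ i, nv w (MvPolynomial.aeval (co x) (g i))))) / dg x

/-- For a finite place `v`: the logarithm of `|F|_v ^ (2 r - 2) / |disc x|_v`, where `F` is the Chow form of
`x` and `|.|_v` the maximum of the coefficients: an integral multiple of `log N v`. -/
noncomputable def ordDisc (v : FinitePlace k) (x : κ → AlgebraicClosure k) : ℝ :=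
  (2 * dg x - 2) * Real.log (⨆ γ, nv (.inr v) ((chow x).coeff γ)) -
    Real.log (⨆ μ, nv (.inr v) ((disc x).coeff μ))

/-- `log N v` -/
noncomputable def lnorm (v : FinitePlace k) : ℝ := Real.log (Ideal.absNorm v.maximalIdeal.asIdeal)

/-- The sum of the `ordDisc v x` over the finite places `v` outside `S`, divided by the degree. -/
noncomputable def delta (S : Finset (Pl k)) (x : κ → AlgebraicClosure k) : ℝ :=
  (∑ᶠ (v : FinitePlace k) (_ : Sum.inr v ∉ S), ordDisc v x) / dg x

/-- The order part: `2 ∑ ⌊o_v/2⌋ log N v` over the finite places `v` outside `S`, divided by the degree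
of `x`, where `ordDisc v x = o_v log N v`. -/
noncomputable def orderPart (S : Finset (Pl k)) (x : κ → AlgebraicClosure k) : ℝ :=
  (2 * ∑ᶠ (v : FinitePlace k) (_ : Sum.inr v ∉ S),
    (⌊ordDisc v x / (2 * lnorm v)⌋ : ℝ) * lnorm v) / dg x

variable {K : Type u} [Field K] [NumberField K] [Algebra k K]

/-- Some multiple `A F`, `A ≠ 0` in `K`, of the Chow form `F` of `x` is a combination `∑ u_j G_j` of the
given forms `G_j` with coefficients `u_j ∈ K` each of which is zero or a `T`-unit (absolute value 1 at all
finite places outside `T`). -/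
def UnitComb (T : Finset (FinitePlace K)) {M : ℕ} (G : Fin M → MvPolynomial κ K)
    (x : κ → AlgebraicClosure k) : Prop :=
  ∃ (A : K) (u : Fin M → K), A ≠ 0 ∧
    (∀ j, u j = 0 ∨ ∀ v : FinitePlace K, v ∉ T → v (u j) = 1) ∧
    MvPolynomial.C A * (chow x).map (algebraMap k K) = ∑ j, MvPolynomial.C (u j) * G j

end

/-- Polynomials in the homogeneous coordinates, indexed by `Fin (d + 1) ⊕ Fin c`. -/
abbrev Poly (R : Type u) [Field R] (d c : ℕ) := MvPolynomial (Fin (d + 1) ⊕ Fin c) R

/-- Vectors of homogeneous coordinates. -/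
abbrev Vec (R : Type u) [Field R] (d c : ℕ) := Fin (d + 1) ⊕ Fin c → AlgebraicClosure R

/-- `x` is a zero of all `φ i`. -/
def IsZero {R : Type u} [Field R] {d c m : ℕ} (φ : Fin m → Poly R d c) (x : Vec R d c) : Prop :=
  ∀ i, MvPolynomial.aeval x (φ i) = 0

/-- The gradient of `f` at `p`. -/
noncomputable def grad {R : Type u} [Field R] {d c : ℕ} (f : Poly R d c) (p : Vec R d c) :
    Vec R d c := fun l => MvPolynomial.aeval p (MvPolynomial.pderiv l f)

/-- `X = {φ = 0}` is smooth of dimension `d` and the divisor with the ideal `(g i)` has simple normal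
crossings on it: for every point `p` of `X` there are `c` of the forms `φ i` and forms `f 1, ..., f s`
over `K` whose gradients at `p` are linearly independent such that, near `p`, the ideal on `X` generated
by the `g i` is generated by `f 1 * ... * f s`: `A g_i = B_i f_1 ... f_s` modulo the ideal of the `φ`,
where `A` and some `B_i` do not vanish at `p`. -/
def NormalCrossings {K : Type u} [Field K] {d c m ν : ℕ} (φ : Fin m → Poly K d c)
    (g : Fin ν → Poly K d c) : Prop :=
  ∀ p : Vec K d c, p ≠ 0 → IsZero φ p →
    ∃ (I : Fin c → Fin m) (s : ℕ) (f : Fin s → Poly K d c) (e : Fin s → ℕ) (A : Poly K d c)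
      (B : Fin ν → Poly K d c),
      (∀ j, (f j).IsHomogeneous (e j)) ∧ MvPolynomial.aeval p A ≠ 0 ∧
      (∃ i, MvPolynomial.aeval p (B i) ≠ 0) ∧
      (∀ i, A * g i - B i * ∏ j, f j ∈ Ideal.span (Set.range φ)) ∧
      LinearIndependent (AlgebraicClosure K)
        (Sum.elim (fun i => grad (φ (I i)) p) (fun j => grad (f j) p))

/-- The determinant with rows the unit vectors `J 0, ..., J d` and the gradients of the `φ (I i)`, up to
sign a maximal minor of the Jacobian matrix of the `φ (I i)`. At a point `x` of `X` where one of them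
does not vanish they are, for varying `J`, the Plücker coordinates of the tangent space of `X` at `x`. -/
noncomputable def tang {R : Type u} [Field R] {d c m : ℕ} (φ : Fin m → Poly R d c)
    (I : Fin c → Fin m) (J : Fin (d + 1) → Fin (d + 1) ⊕ Fin c) : Poly R d c :=
  Matrix.det (Matrix.of fun i l : Fin (d + 1) ⊕ Fin c =>
    Sum.elim (fun b => if J b = l then 1 else 0) (fun i => MvPolynomial.pderiv l (φ (I i))) i)

/-- The height for the canonical divisor, relative to `k`: the height of the tangent space of `X` at `x`
minus `(d + 1) h(x)` (by the Gauss map; the tangent space is computed from the `φ (I i)`). -/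
noncomputable def hgtK {k : Type u} [Field k] [NumberField k] {d c m : ℕ} (φ : Fin m → Poly k d c)
    (I : Fin c → Fin m) (x : Vec k d c) : ℝ :=
  Height.logHeight (fun J => MvPolynomial.aeval (co x) (tang φ I J)) / dg x - (d + 1) * hgt x

/-- The two inequalities for `x` with the constant `C`:
(1) `h_K(x) + ∑_{p ∈ S} λ_D(x,p) ≤ ε h(x) + δ_S(x) + C`;
(2) `h_K(x) + ∑_{p ∈ S} λ_D(x,p) ≤ ε h(x) + d_k(x) + (2/r) ∑_{v ∉ S} ⌊o_v/2⌋ log N v + C`. -/
def Ineq {k : Type u} [Field k] [NumberField k] {d c m ν : ℕ} (S : Finset (Pl k))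
    (φ : Fin m → Poly k d c) (g : Fin ν → Poly k d c) (q : ℕ) (ε C : ℝ) (I : Fin c → Fin m)
    (x : Vec k d c) : Prop :=
  hgtK φ I x + ∑ p ∈ S, lamD g q p x ≤ ε * hgt x + delta S x + C ∧
    hgtK φ I x + ∑ p ∈ S, lamD g q p x ≤ ε * hgt x + dk x + orderPart S x + C

/-- There are a closed subset `Z = {x_0 = 0} ∪ {Q(x_1/x_0, ..., x_d/x_0) = 0}`, `Q ≠ 0`, and a constant
`C` such that the two inequalities hold for all points `x` of `X` outside `Z` and outside `D`, of degree
`r`, whose Chow form is up to scaling a combination of the `G_j` with `T`-units or zero as coefficients. -/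
theorem result (k : Type u) [Field k] [NumberField k]
    (S : Finset (Pl k)) (hS : ∀ v : InfinitePlace k, Sum.inl v ∈ S)
    (d c m : ℕ) (hd : 1 ≤ d) (φ : Fin m → Poly k d c) (a : Fin m → ℕ)
    (hφ : ∀ i, (φ i).IsHomogeneous (a i)) (ν q : ℕ) (g : Fin ν → Poly k d c)
    (hg : ∀ i, (g i).IsHomogeneous q) (K : Type u) [Field K] [NumberField K] [Algebra k K]
    (hnc : NormalCrossings (fun i => (φ i).map (algebraMap k K))
      fun i => (g i).map (algebraMap k K))
    (r : ℕ) (hr : 1 ≤ r) (T : Finset (FinitePlace K)) (M : ℕ) (G : Fin M → Poly K d c)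
    (hG : ∀ j, (G j).IsHomogeneous r) (ε : ℝ) (hε : 0 < ε) :
    ∃ (Q : MvPolynomial (Fin d) k) (C : ℝ), Q ≠ 0 ∧
      ∀ x : Vec k d c, x (Sum.inl 0) = 1 → IsZero φ x →
        MvPolynomial.aeval (fun b : Fin d => x (Sum.inl b.succ)) Q ≠ 0 →
        (∃ i, MvPolynomial.aeval x (g i) ≠ 0) → dg x = r → UnitComb T G x →
        ∀ I : Fin c → Fin m, (∃ J, MvPolynomial.aeval x (tang φ I J) ≠ 0) →
          Ineq S φ g q ε C I x := by
  classical
  obtain ⟨Q, C, hQ0, hmain⟩ := Pool.Agent.Helper16.VG.vojtaG (k := k) (K := K) hd hr S hS φ a hφ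
    (Pool.Agent.Helper16.VG.shift g (d + 1))
    (fun i => Pool.Agent.Helper16.VG.shift_hom g hg (d + 1) i)
    (by
      have h1 : Pool.Agent.Helper16.VG.SNCG (fun i => (φ i).map (algebraMap k K))
          fun i => (g i).map (algebraMap k K) := hnc
      have h2 := Pool.Agent.Helper16.VG.shift_snc _ _ (d + 1) h1
      have h3 : (fun i => (Pool.Agent.Helper16.VG.shift g (d + 1) i).map (algebraMap k K)) =
          Pool.Agent.Helper16.VG.shift (fun i => (g i).map (algebraMap k K)) (d + 1) := by
        funext i
        exact Pool.Agent.Helper16.VG.shift_map _ g (d + 1) i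
      rw [h3]
      exact h2) (by omega) T G hG ε hε
  obtain ⟨C', hδ⟩ := Pool.Agent.Helper16.VG.delta_int k (Fin (d + 1) ⊕ Fin c) r hr (Sum.inl 0)
  refine ⟨Q, |C| + |C'|, hQ0, ?_⟩
  intro x hx1 hxφ hxQ hxg hxr hxu I hxI
  have hinj : Function.Injective (algebraMap (fld x) (AlgebraicClosure k)) :=
    (algebraMap (fld x) (AlgebraicClosure k)).injective
  have hval : ∀ P : MvPolynomial (Fin (d + 1) ⊕ Fin c) k,
      algebraMap (fld x) (AlgebraicClosure k) (MvPolynomial.aeval (co x) P) =
        MvPolynomial.aeval x P := by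
    intro P
    rw [← MvPolynomial.aeval_algebraMap_apply]
    rfl
  have hco1 : co x (Sum.inl 0) = 1 := by
    apply hinj
    rw [map_one]
    exact hx1
  have hgen : IntermediateField.adjoin k (Set.range (co x)) = ⊤ := by
    apply IntermediateField.map_injective (fld x).val
    rw [IntermediateField.adjoin_map]
    have h1 : (fld x).val '' Set.range (co x) = Set.range x := by
      rw [← Set.range_comp]
      rfl
    rw [h1, ← AlgHom.fieldRange_eq_map, IntermediateField.fieldRange_val]
  obtain ⟨A, u, hA, hu, hAu⟩ := hxu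
  have hL : Module.finrank k (fld x) = r := hxr
  have hyne : ∃ j, co x j ≠ 0 := ⟨Sum.inl 0, by rw [hco1]; exact one_ne_zero⟩
  have hyg : ∃ i, MvPolynomial.aeval (co x) (g i) ≠ 0 := by
    obtain ⟨i, hi⟩ := hxg
    refine ⟨i, fun h => hi ?_⟩
    rw [← hval, h, map_zero]
  have h1 := hmain (fld x) hL (co x) hco1 hgen
    (fun i => hinj (by rw [hval, hxφ, map_zero]))
    (by
      intro h
      apply hxQ
      have h2 : algebraMap (fld x) (AlgebraicClosure k) (MvPolynomial.aeval
          (fun b : Fin d => co x (Sum.inl b.succ)) Q) =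
          MvPolynomial.aeval (fun b : Fin d => x (Sum.inl b.succ)) Q := by
        rw [← MvPolynomial.aeval_algebraMap_apply]
        rfl
      rw [← h2, h, map_zero])
    (Pool.Agent.Helper16.VG.shift_ne g (d + 1) (co x) hyne hyg) I
    (by
      obtain ⟨J, hJ⟩ := hxI
      refine ⟨J, fun h => hJ ?_⟩
      rw [← hval]
      have h2 : MvPolynomial.aeval (co x) (tang φ I J) = 0 := h
      rw [h2, map_zero])
    A u hA hu hAu
  have h3 := hδ (fld x) hL (co x) hco1 hgen S
  have hord : ∀ v : FinitePlace k, (2 * (r : ℝ) - 2) * Real.log (Pool.Agent.V2.pn (.inr v)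
      (Pool.Agent.Helper16.UP.chow k (co x))) - Real.log (Pool.Agent.V2.pn (.inr v)
        (Pool.Agent.Helper16.VG.dF (Pool.Agent.Helper16.UP.chow k (co x)))) =
      ordDisc v x := by
    intro v
    unfold ordDisc
    rw [hxr]
    rfl
  have hlam : ∀ p : Pl k, (∑ w ∈ above (fld x) p,
      (((q + (d + 1) : ℕ) : ℝ) * Real.log (Pool.Agent.V2.vn w (co x)) -
        Real.log (Pool.Agent.V2.vn w fun i =>
          MvPolynomial.aeval (co x) (Pool.Agent.Helper16.VG.shift g (d + 1) i)))) /
      Module.finrank k (fld x) = lamD g q p x := by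
    intro p
    unfold lamD dg
    congr 1
    refine Finset.sum_congr rfl fun w _ => ?_
    rw [Pool.Agent.Helper16.VG.shift_vn]
    have hv1 : 0 < Pool.Agent.V2.vn w (co x) := by
      apply Pool.Agent.V2.vn_pos
      intro h
      obtain ⟨j, hj⟩ := hyne
      exact hj (congrFun h j)
    have hv2 : 0 < Pool.Agent.V2.vn w (fun i => MvPolynomial.aeval (co x) (g i)) := by
      apply Pool.Agent.V2.vn_pos
      intro h
      obtain ⟨i, hi⟩ := hyg
      exact hi (congrFun h i)
    rw [Real.log_mul hv2.ne' (pow_pos hv1 _).ne', Real.log_pow]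
    have e1 : (⨆ j, nv w (co x j)) = Pool.Agent.V2.vn w (co x) := rfl
    have e2 : (⨆ i, nv w (MvPolynomial.aeval (co x) (g i))) =
      Pool.Agent.V2.vn w (fun i => MvPolynomial.aeval (co x) (g i)) := rfl
    rw [e1, e2]
    push_cast
    ring
  simp_rw [hord, hlam] at h1
  simp_rw [hord] at h3
  have hr' : (0 : ℝ) < r := by exact_mod_cast hr
  have hr1 : (1 : ℝ) ≤ r := by exact_mod_cast hr
  have hCC := le_abs_self C
  have hCC' := le_abs_self C'
  have hlhs : hgtK φ I x + ∑ p ∈ S, lamD g q p x ≤ ε * hgt x + delta S x + C := by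
    unfold hgtK hgt delta dg
    rw [hL] at h1 ⊢
    exact h1
  have hdelta : delta S x ≤ dk x + orderPart S x + |C'| := by
    unfold delta dk orderPart lnorm
    rw [hxr]
    have h6 : Real.log |(discr (fld x) : ℝ)| / r - Real.log |(discr k : ℝ)| =
      (Real.log |(discr (fld x) : ℝ)| - r * Real.log |(discr k : ℝ)|) / r := by field_simp
    have h7 : |C'| / r ≤ |C'| := div_le_self (abs_nonneg _) hr1
    have h8 : (∑ᶠ (v : FinitePlace k) (_ : Sum.inr v ∉ S), ordDisc v x) / r ≤
        ((Real.log |(discr (fld x) : ℝ)| - r * Real.log |(discr k : ℝ)|) +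
          2 * ∑ᶠ (v : FinitePlace k) (_ : Sum.inr v ∉ S),
            (⌊ordDisc v x / (2 * Real.log (Ideal.absNorm v.maximalIdeal.asIdeal))⌋ : ℝ) *
              Real.log (Ideal.absNorm v.maximalIdeal.asIdeal) + |C'|) / r :=
      div_le_div_of_nonneg_right (h3.trans (by linarith)) hr'.le
    rw [add_div, add_div] at h8
    rw [h6]
    linarith
  exact ⟨by linarith [abs_nonneg C'], by linarith⟩

end Pool.Agent.Results.MP_71c16a_nt.UnitChowForms
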